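import Pool.Agent.H44.GT.Targets

/-!
# Row U_EQ of the board gd: two invariant measures with the same class are equal
-/

set_option autoImplicit false

namespace Pool.Agent.H54.GD

open Pool.Agent.H44.DU

theorem pf_U_EQ (hcst : M_CST) : U_EQ := by
  intro n S t p p' r φ hcon hgd hmin hφ hp hp' hcc
  -- the difference
  set d : Fin n → ℝ → ℝ := fun i x => p' i x - p i x with hd
  have hds : ∀ s : Side n, d s.1 (xi t (S.Q s)) - d s.1 (xi t (S.P s)) = φ (nx s) - φ s := by
    intro s
    have h := hcc s
    simp only [Surf.cc, Surf.coh, zero_mul, zero_add] at h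
    simp only [hd]
    linarith
  set h : Fin n → ℝ → ℝ := fun i x => d i x - d i (xi t (S.P (i, 0))) + φ (i, 0) with hh
  have hP : ∀ c : Side n, h c.1 (xi t (S.P c)) = φ c := by
    intro c
    obtain ⟨i, k⟩ := c
    rcases side_cases (r := (i, k)) (s := (i, 0)) rfl with e | e | e
    · rw [e]
      simp only [hh]
      ring
    · rw [e]
      have h1 := hds (i, 0)
      simp only [hh, S.P_nx, nx_fst] at h1 ⊢
      linarith
    · rw [e]
      have h1 := hds (i, 0)
      have h2 := hds (nx (i, 0))
      rw [S.P_nx, nx_fst] at h2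
      rw [S.P_nx, nx_fst, nx_fst]
      simp only [hh] at h1 ⊢
      linarith
  have hcont : ∀ i, Continuous (h i) := by
    intro i
    have h1 : Continuous (d i) := (hp'.im.cont i).sub (hp.im.cont i)
    exact (h1.sub continuous_const).add continuous_const
  have hinv : ∀ (r : Side n) (x : ℝ), S.InJ t r x →
      h (S.gl r).1 (S.mv t r x) = h r.1 x := by
    intro r x hx
    have h1 := hp.im.glue r (xi t (S.Q r)) x le_rfl hx.1.le hx.2.le
    have h2 := hp'.im.glue r (xi t (S.Q r)) x le_rfl hx.1.le hx.2.le
    have h3 : h (S.gl r).1 (S.mv t r (xi t (S.Q r))) = φ (S.gl r) := by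
      rw [← S.xi_P_gl]
      exact hP (S.gl r)
    have h4 : h r.1 (xi t (S.Q r)) = φ (nx r) := by
      have := hP (nx r)
      rwa [S.P_nx, nx_fst] at this
    have h5 : φ (nx r) = φ (S.gl r) := by
      have := hφ (S.gl r)
      rwa [S.gl_gl] at this
    simp only [hh, hd] at h3 h4 ⊢
    linarith
  obtain ⟨k, hk⟩ := hcst n S t h hcon hgd hmin hcont hinv
  have hlr : ∀ i, S.xl t i ≤ S.xr t i := fun i =>
    (min_le_left _ _).trans (le_max_left _ _)
  have hmid : ∀ i x, S.xl t i ≤ x → x ≤ S.xr t i → p i x = p' i x := by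
    intro i x h1 h2
    have e1 := hk i x h1 h2
    have e2 := hk i (S.xl t i) le_rfl (hlr i)
    have e3 := hp.left i (S.xl t i) le_rfl
    have e4 := hp'.left i (S.xl t i) le_rfl
    simp only [hh, hd] at e1 e2
    linarith
  funext i x
  rcases le_total x (S.xl t i) with h1 | h1
  · rw [hp.left i x h1, hp'.left i x h1]
  · rcases le_total x (S.xr t i) with h2 | h2
    · exact hmid i x h1 h2
    · rw [hp.right i x h2, hp'.right i x h2]
      exact hmid i _ (hlr i) le_rfl

end Pool.Agent.H54.GD
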